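import Pool.Agent.MP_8a92de_lc.Mg.H92_Main

namespace Pool.Agent.Results.MP_8a92de_lc.ACmodCollapse

open Pool.Agent.MP_8a92de_lc.H92

theorem result (p : ℕ) (hp : p.Prime) (C : Set (List Bool → Bool))
    (hC : ∀ A B, N793a5b8e.ManyOneReducible A B → B ∈ C → A ∈ C)
    (h0 : ∃ L ∈ C, (∃ x, L x = true) ∧ ∃ x, L x = false)
    (B : List Bool → Bool) (hB : ∀ A ∈ C, ∃ f, IsACmod p f ∧ ∀ x, A x = B (f x)) :
    ∀ A ∈ C, ∃ g, IsACmod p g ∧ Function.Injective g ∧ (∀ x, x.length < (g x).length) ∧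
      ∀ x, A x = B (g x) := by
  intro A hA
  have : Fact p.Prime := ⟨hp⟩
  obtain ⟨f, hf, hred⟩ := hB _ (mask_mem hC h0 hA)
  exact one_li hf hred

end Pool.Agent.Results.MP_8a92de_lc.ACmodCollapse
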