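import Mathlib
import Pool.Prelude.Def_F_458e953d

namespace Pool.Agent.MP_8a92de_lc.H92

/-- Boolean formulas with negation and unbounded fan-in AND, OR and MOD gates. -/
inductive Fm : Type
  | var : ℕ → Fm
  | neg : Fm → Fm
  | conj : (k : ℕ) → (Fin k → Fm) → Fm
  | disj : (k : ℕ) → (Fin k → Fm) → Fm
  | modp : (k : ℕ) → (Fin k → Fm) → Fm

/-- Value under the assignment `a`; a MOD gate is true iff `p` divides the number of true inputs. -/
def Fm.eval (p : ℕ) (a : ℕ → Bool) : Fm → Bool
  | .var i => a i
  | .neg c => !(c.eval p a)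
  | .conj _ c => decide (∀ i, (c i).eval p a = true)
  | .disj _ c => decide (∃ i, (c i).eval p a = true)
  | .modp _ c => decide (p ∣ ∑ i, if (c i).eval p a = true then 1 else 0)

/-- Number of nodes. -/
def Fm.size : Fm → ℕ
  | .var _ => 1
  | .neg c => c.size + 1
  | .conj _ c => (∑ i, (c i).size) + 1
  | .disj _ c => (∑ i, (c i).size) + 1
  | .modp _ c => (∑ i, (c i).size) + 1

/-- Length of a longest path from the root to a variable. -/
def Fm.depth : Fm → ℕ
  | .var _ => 0
  | .neg c => c.depth + 1
  | .conj _ c => (Finset.univ.sup fun i => (c i).depth) + 1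
  | .disj _ c => (Finset.univ.sup fun i => (c i).depth) + 1
  | .modp _ c => (Finset.univ.sup fun i => (c i).depth) + 1

/-- `f` is computable in non-uniform `AC⁰[p]`: the output length is polynomially bounded, and for
each input length there are formulas of polynomial size and constant depth in the input bits that
decide, for each position `j`, whether `j < |f x|` and the `j`-th bit of `f x`. -/
def IsACmod (p : ℕ) (f : List Bool → List Bool) : Prop :=
  ∃ (d : ℕ) (q : Polynomial ℕ), ∀ n : ℕ, ∃ len bit : ℕ → Fm,
    (∀ j, (len j).depth ≤ d ∧ (len j).size ≤ q.eval n ∧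
      (bit j).depth ≤ d ∧ (bit j).size ≤ q.eval n) ∧
    ∀ x : List Bool, x.length = n → (f x).length ≤ q.eval n ∧ ∀ j,
      (len j).eval p (fun i => x.getD i false) = decide (j < (f x).length) ∧
      (bit j).eval p (fun i => x.getD i false) = (f x).getD j false

end Pool.Agent.MP_8a92de_lc.H92
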