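import Mathlib

/-! Low-degree functions on the cube `Finset (Fin m)` and the closure bound for sets that avoid
a Hamming ball. -/

namespace Pool.Agent.MP_8a92de_lc.H92

open Finset

variable {F : Type} [Field F] {m : ℕ}

def mono (F : Type) [Field F] (S : Finset (Fin m)) : Finset (Fin m) → F :=
  fun T => if S ⊆ T then 1 else 0

def Deg (F : Type) [Field F] (m D : ℕ) : Submodule F (Finset (Fin m) → F) :=
  Submodule.span F (Set.range fun S : {S : Finset (Fin m) // S.card ≤ D} => mono F S.1)

theorem mono_mem {D : ℕ} {S : Finset (Fin m)} (h : S.card ≤ D) : mono F S ∈ Deg F m D :=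
  Submodule.subset_span ⟨⟨S, h⟩, rfl⟩

theorem Deg.mono_le {a b : ℕ} (h : a ≤ b) {f : Finset (Fin m) → F} (hf : f ∈ Deg F m a) :
    f ∈ Deg F m b := by
  refine Submodule.span_le.2 ?_ hf
  rintro _ ⟨S, rfl⟩
  exact mono_mem (S.2.trans h)

theorem Deg.one (D : ℕ) : (1 : Finset (Fin m) → F) ∈ Deg F m D := by
  have : (1 : Finset (Fin m) → F) = mono F ∅ := by ext T; simp [mono]
  rw [this]
  exact mono_mem (by simp)

theorem mono_mul (S T : Finset (Fin m)) : mono F S * mono F T = mono F (S ∪ T) := by
  ext U
  simp only [mono, Pi.mul_apply, union_subset_iff]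
  by_cases h1 : S ⊆ U <;> by_cases h2 : T ⊆ U <;> simp [h1, h2]

theorem Deg.mul {a b : ℕ} {f g : Finset (Fin m) → F} (hf : f ∈ Deg F m a) (hg : g ∈ Deg F m b) :
    f * g ∈ Deg F m (a + b) := by
  induction hf using Submodule.span_induction with
  | zero => simp
  | add x y _ _ hx hy => rw [add_mul]; exact add_mem hx hy
  | smul c x _ hx => rw [smul_mul_assoc]; exact Submodule.smul_mem _ _ hx
  | mem x hx =>
    obtain ⟨S, rfl⟩ := hx
    induction hg using Submodule.span_induction with
    | zero => simp
    | add x y _ _ hx hy => rw [mul_add]; exact add_mem hx hy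
    | smul c x _ hx => rw [mul_smul_comm]; exact Submodule.smul_mem _ _ hx
    | mem x hx =>
      obtain ⟨T, rfl⟩ := hx
      simp only [mono_mul]
      exact mono_mem ((card_union_le _ _).trans (Nat.add_le_add S.2 T.2))

theorem Deg.pow {a : ℕ} {f : Finset (Fin m) → F} (hf : f ∈ Deg F m a) (k : ℕ) :
    f ^ k ∈ Deg F m (k * a) := by
  induction k with
  | zero => simpa using Deg.one 0
  | succ k ih => rw [pow_succ, Nat.succ_mul]; exact Deg.mul ih hf

theorem shift_mono (c S : Finset (Fin m)) :
    (fun T => mono F S (symmDiff T c)) ∈ Deg F m S.card := by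
  induction S using Finset.induction_on with
  | empty =>
    have : (fun T => mono F (∅ : Finset (Fin m)) (symmDiff T c)) = 1 := by ext T; simp [mono]
    rw [this]; exact Deg.one _
  | insert i S hi ih =>
    have h1 : (fun T => mono F {i} (symmDiff T c)) ∈ Deg F m 1 := by
      by_cases hc : i ∈ c
      · have : (fun T => mono F {i} (symmDiff T c)) = 1 - mono F {i} := by
          ext T; by_cases hT : i ∈ T <;> simp [mono, mem_symmDiff, hc, hT]
        rw [this]; exact sub_mem (Deg.one _) (mono_mem (by simp))
      · have : (fun T => mono F {i} (symmDiff T c)) = mono F {i} := by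
          ext T; by_cases hT : i ∈ T <;> simp [mono, mem_symmDiff, hc, hT]
        rw [this]; exact mono_mem (by simp)
    have h2 := Deg.mul h1 ih
    have e : (fun T => mono F (insert i S) (symmDiff T c)) =
        (fun T => mono F {i} (symmDiff T c)) * fun T => mono F S (symmDiff T c) := by
      ext T
      have := congrFun (mono_mul (F := F) {i} S) (symmDiff T c)
      simp only [Pi.mul_apply] at this ⊢
      rw [this, insert_eq]
    rw [e, card_insert_of_notMem hi, add_comm]
    exact h2

theorem Deg.shift {D : ℕ} (c : Finset (Fin m)) {f : Finset (Fin m) → F} (hf : f ∈ Deg F m D) :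
    (fun T => f (symmDiff T c)) ∈ Deg F m D := by
  induction hf using Submodule.span_induction with
  | zero => exact zero_mem _
  | add x y _ _ hx hy => exact add_mem hx hy
  | smul c x _ hx => exact Submodule.smul_mem _ c hx
  | mem x hx =>
    obtain ⟨S, rfl⟩ := hx
    exact Deg.mono_le S.2 (shift_mono c S.1)

/-- triangularity of the monomials -/
theorem coeff_zero {ι : Type} [Fintype ι] (s : ι → Finset (Fin m)) (hs : Function.Injective s)
    (c : ι → F) (h : ∀ j, ∑ i, c i * mono F (s i) (s j) = 0) : ∀ j, c j = 0 := by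
  classical
  have key : ∀ k j, (s j).card = k → c j = 0 := by
    intro k
    induction k using Nat.strong_induction_on with
    | _ k ih =>
      intro j hj
      have := h j
      rw [Finset.sum_eq_single j] at this
      · simpa [mono] using this
      · intro i _ hij
        by_cases hsub : s i ⊆ s j
        · have hlt : (s i).card < k := by
            rw [← hj]
            exact card_lt_card (ssubset_of_ne_of_subset (fun e => hij (hs e)) hsub)
          rw [ih _ hlt i rfl, zero_mul]
        · simp [mono, hsub]
      · simp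
  exact fun j => key _ j rfl

theorem Deg.eq_zero {D : ℕ} {f : Finset (Fin m) → F} (hf : f ∈ Deg F m D)
    (h : ∀ T : Finset (Fin m), T.card ≤ D → f T = 0) : f = 0 := by
  obtain ⟨c, hc⟩ := (Submodule.mem_span_range_iff_exists_fun F).1 hf
  have := coeff_zero (fun S : {S : Finset (Fin m) // S.card ≤ D} => S.1) Subtype.val_injective c
    (fun j => by
      have := congrFun hc j.1
      rw [h j.1 j.2] at this
      simpa using this)
  rw [← hc]
  simp [this]

theorem Deg.eq_zero_shift {D : ℕ} (c : Finset (Fin m)) {f : Finset (Fin m) → F}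
    (hf : f ∈ Deg F m D) (h : ∀ T : Finset (Fin m), (symmDiff T c).card ≤ D → f T = 0) :
    f = 0 := by
  have := Deg.eq_zero (Deg.shift c hf) (fun T hT => h _ (by simpa using hT))
  ext T
  have := congrFun this (symmDiff T c)
  simpa using this

/-- number of subsets of size at most `t` -/
def ball (m t : ℕ) : ℕ := (univ.filter fun S : Finset (Fin m) => S.card ≤ t).card

theorem exists_center (C : Finset (Finset (Fin m))) (t : ℕ) :
    ∃ c : Finset (Fin m), C.card * ball m t ≤
      (C.filter fun T => (symmDiff T c).card ≤ t).card * 2 ^ m := by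
  by_contra hc
  push Not at hc
  have h1 : ∑ c : Finset (Fin m), (C.filter fun T => (symmDiff T c).card ≤ t).card =
      C.card * ball m t := by
    simp only [card_filter]
    rw [Finset.sum_comm, card_eq_sum_ones, Finset.sum_mul]
    refine Finset.sum_congr rfl fun T _ => ?_
    rw [one_mul, ball, card_filter]
    refine Finset.sum_bijective (fun c => symmDiff T c) ?_ (by simp) (by simp)
    exact Function.Involutive.bijective fun c => by simp
  have h2 : ∑ c : Finset (Fin m), (C.filter fun T => (symmDiff T c).card ≤ t).card * 2 ^ m <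
      ∑ _c : Finset (Fin m), C.card * ball m t :=
    Finset.sum_lt_sum_of_nonempty univ_nonempty fun c _ => hc c
  rw [← Finset.sum_mul, h1] at h2
  simp [mul_comm] at h2

/-- A set that is approximated by a low-degree function and avoids a ball is small. -/
theorem closure_bound {D t : ℕ} (c0 : Finset (Fin m)) (C E : Finset (Finset (Fin m)))
    {P : Finset (Fin m) → F} (hP : P ∈ Deg F m D)
    (hE : ∀ T, T ∉ E → P T = if T ∈ C then 1 else 0)
    (hC : ∀ T ∈ C, D + t < (symmDiff T c0).card) : C.card * ball m t ≤ E.card * 2 ^ m := by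
  classical
  obtain ⟨c, hc⟩ := exists_center C t
  refine hc.trans (Nat.mul_le_mul_right _ ?_)
  set W := C.filter fun T => (symmDiff T c).card ≤ t with hW
  by_contra hlt
  push Not at hlt
  let v : W → (E → F) := fun w e => mono F (symmDiff w.1 c) (symmDiff e.1 c)
  have hdep : ¬ LinearIndependent F v := by
    intro hli
    have := hli.fintype_card_le_finrank
    simp only [Fintype.card_coe, Module.finrank_pi] at this
    omega
  obtain ⟨g, hg, i, hi⟩ := Fintype.not_linearIndependent_iff.1 hdep
  set Q : Finset (Fin m) → F :=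
    ∑ w : W, g w • fun T => mono F (symmDiff w.1 c) (symmDiff T c) with hQ
  have hQd : Q ∈ Deg F m t := Submodule.sum_mem _ fun w _ => Submodule.smul_mem _ _
    (Deg.mono_le (mem_filter.1 w.2).2 (shift_mono c _))
  have hQE : ∀ T ∈ E, Q T = 0 := fun T hT => by
    have := congrFun hg ⟨T, hT⟩
    simpa [hQ, v, Finset.sum_apply] using this
  have hPQ : P * Q = 0 := by
    refine Deg.eq_zero_shift c0 (Deg.mul hP hQd) fun T hT => ?_
    by_cases hTE : T ∈ E
    · simp [hQE T hTE]
    · have : T ∉ C := fun h => absurd (hC T h) (by omega)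
      simp [hE T hTE, this]
  have hQC : ∀ T ∈ C, Q T = 0 := fun T hT => by
    by_cases hTE : T ∈ E
    · exact hQE T hTE
    · have := congrFun hPQ T
      simpa [hE T hTE, hT] using this
  refine hi (coeff_zero (fun w : W => symmDiff w.1 c) ?_ g (fun j => ?_) i)
  · intro a b hab
    exact Subtype.ext (symmDiff_left_injective c hab)
  · have := hQC j.1 (mem_filter.1 j.2).1
    simpa [hQ, Finset.sum_apply] using this

theorem centralBinom_sq (u : ℕ) : ((2 * u).choose u) ^ 2 * (2 * u + 1) ≤ (4 ^ u) ^ 2 := by
  rw [← Nat.centralBinom_eq_two_mul_choose]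
  induction u with
  | zero => simp
  | succ u ih =>
    have h := Nat.succ_mul_centralBinom_succ u
    have h2 : (u + 1) ^ 2 * (Nat.centralBinom (u + 1) ^ 2 * (2 * (u + 1) + 1)) ≤
        (u + 1) ^ 2 * (4 ^ (u + 1)) ^ 2 := by
      calc (u + 1) ^ 2 * (Nat.centralBinom (u + 1) ^ 2 * (2 * (u + 1) + 1))
          = ((u + 1) * Nat.centralBinom (u + 1)) ^ 2 * (2 * u + 3) := by ring
        _ = (Nat.centralBinom u ^ 2 * (2 * u + 1)) * (4 * ((2 * u + 1) * (2 * u + 3))) := by
          rw [h]; ring
        _ ≤ (4 ^ u) ^ 2 * (16 * (u + 1) ^ 2) := Nat.mul_le_mul ih (by nlinarith)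
        _ = _ := by ring
    exact Nat.le_of_mul_le_mul_left h2 (by positivity)

theorem ball_lower {u D t : ℕ} (ht : D + t + 1 = u) (hD : (4 * D + 2) ^ 2 ≤ 2 * u + 1) :
    4 ^ u ≤ 4 * ball (2 * u) t := by
  classical
  set M := (2 * u).choose u with hM
  have h1 : (4 * D + 2) * M ≤ 4 ^ u := by
    have := centralBinom_sq u
    have h2 : ((4 * D + 2) * M) ^ 2 ≤ (4 ^ u) ^ 2 := by
      calc ((4 * D + 2) * M) ^ 2 = M ^ 2 * (4 * D + 2) ^ 2 := by ring
        _ ≤ M ^ 2 * (2 * u + 1) := Nat.mul_le_mul_left _ hD
        _ ≤ _ := this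
    exact (Nat.pow_le_pow_iff_left two_ne_zero).1 h2
  have hcover : (univ : Finset (Finset (Fin (2 * u)))) ⊆
      (univ.filter fun S => S.card ≤ t) ∪ ((univ.filter fun S => S.card ≤ t).image compl ∪
        (range (2 * D + 1)).biUnion fun i => powersetCard (t + 1 + i) univ) := by
    intro S _
    simp only [mem_union, mem_filter, mem_univ, true_and, mem_image, mem_biUnion, mem_range,
      mem_powersetCard, subset_univ]
    by_cases a1 : S.card ≤ t
    · exact Or.inl a1
    by_cases a2 : Sᶜ.card ≤ t
    · exact Or.inr (Or.inl ⟨Sᶜ, a2, compl_compl S⟩)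
    · rw [card_compl, Fintype.card_fin] at a2
      exact Or.inr (Or.inr ⟨S.card - (t + 1), by omega, by omega⟩)
  have h3 := card_le_card hcover
  have h4 : ((range (2 * D + 1)).biUnion fun i =>
      powersetCard (t + 1 + i) (univ : Finset (Fin (2 * u)))).card ≤ (2 * D + 1) * M := by
    refine card_biUnion_le.trans ?_
    refine (Finset.sum_le_card_nsmul _ _ M fun i _ => ?_).trans (by simp)
    rw [card_powersetCard, card_univ, Fintype.card_fin, hM, ← Nat.centralBinom_eq_two_mul_choose]
    exact Nat.choose_le_centralBinom _ _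
  have h5 := card_union_le (univ.filter fun S : Finset (Fin (2 * u)) => S.card ≤ t)
    ((univ.filter fun S => S.card ≤ t).image compl ∪
        (range (2 * D + 1)).biUnion fun i => powersetCard (t + 1 + i) univ)
  have h6 := card_union_le ((univ.filter fun S : Finset (Fin (2 * u)) => S.card ≤ t).image compl)
    ((range (2 * D + 1)).biUnion fun i => powersetCard (t + 1 + i) univ)
  have h7 := card_image_le (s := univ.filter fun S : Finset (Fin (2 * u)) => S.card ≤ t)
    (f := compl)
  have h8 : (univ : Finset (Finset (Fin (2 * u)))).card = 4 ^ u := by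
    rw [card_univ, Fintype.card_finset, Fintype.card_fin, pow_mul]; norm_num
  unfold ball
  have h9 : (4 * D + 2) * M = 2 * ((2 * D + 1) * M) := by ring
  omega

end Pool.Agent.MP_8a92de_lc.H92
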