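import Pool.Agent.MP_8a92de_lc.H92.ACmodCollapse

/-! The class NP satisfies the hypotheses of the collapse theorem. -/

namespace Pool.Agent.MP_8a92de_lc.H92

open Pool.Agent.Lib.Cx N68a2faeb N793a5b8e

theorem np_closed (A B : List Bool → Bool) (h : ManyOneReducible A B) (hB : B ∈ NP) : A ∈ NP := by
  classical
  obtain ⟨f, hf, hA⟩ := h
  obtain ⟨p, R, hR, hB⟩ := hB
  have hf' : PT f := pt_iff_isPolyTime.2 hf
  have hR' : PT R := pt_iff_isPolyTime.2 hR
  obtain ⟨s, hs⟩ : PB fun x => p.eval (f x).length := by fun_prop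
  have h2 : PT fun z : List Bool × List Bool =>
      decide (z.2.length ≤ p.eval (f z.1).length) && R (f z.1, z.2) := by fun_prop
  refine ⟨s.comp (3 * Polynomial.X), _, pt_iff_isPolyTime.1 h2, fun x => ?_⟩
  have h3 := hs x
  rw [size_listBool] at h3
  rw [hA, hB]
  simp only [Bool.and_eq_true, decide_eq_true_eq, Polynomial.eval_comp, Polynomial.eval_mul,
    Polynomial.eval_ofNat, Polynomial.eval_X]
  exact ⟨fun ⟨w, h4, h5⟩ => ⟨w, h4.trans h3, h4, h5⟩, fun ⟨w, _, h⟩ => ⟨w, h⟩⟩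

theorem np_nontrivial : ∃ L ∈ NP, (∃ x, L x = true) ∧ ∃ x, L x = false := by
  have h : PT fun z : List Bool × List Bool => decide (z.1 = []) := by fun_prop
  refine ⟨fun x => decide (x = []), ⟨0, _, pt_iff_isPolyTime.1 h, fun x => ?_⟩, ⟨[], rfl⟩,
    [true], rfl⟩
  exact ⟨fun h => ⟨[], by simp, h⟩, fun ⟨_, _, h⟩ => h⟩

theorem np_collapse (p : ℕ) (hp : p.Prime) (B : List Bool → Bool)
    (hB : ∀ A ∈ NP, ∃ f, IsACmod p f ∧ ∀ x, A x = B (f x)) :
    ∀ A ∈ NP, ∃ g, IsACmod p g ∧ Function.Injective g ∧ (∀ x, x.length < (g x).length) ∧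
      ∀ x, A x = B (g x) :=
  Pool.Agent.Results.MP_8a92de_lc.ACmodCollapse.result p hp NP np_closed np_nontrivial B hB

end Pool.Agent.MP_8a92de_lc.H92
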