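import Mathlib

/-! Parameters. -/

namespace Pool.Agent.MP_8a92de_lc.H92

open Finset

def strs (n : ℕ) : Finset (List Bool) := (univ : Finset (Fin n → Bool)).image List.ofFn

theorem mem_strs {n : ℕ} {x : List Bool} : x ∈ strs n ↔ x.length = n := by
  simp only [strs, mem_image, mem_univ, true_and]
  constructor
  · rintro ⟨a, rfl⟩; simp
  · rintro rfl; exact ⟨x.get, List.ofFn_get x⟩

theorem card_strs (n : ℕ) : (strs n).card ≤ 2 ^ n := card_image_le.trans (by simp)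

theorem eval_mono (q : Polynomial ℕ) {a b : ℕ} (h : a ≤ b) : q.eval a ≤ q.eval b := by
  induction q using Polynomial.induction_on' with
  | add p q hp hq => simp only [Polynomial.eval_add]; omega
  | monomial n c =>
    simp only [Polynomial.eval_monomial]
    exact Nat.mul_le_mul_left _ (Nat.pow_le_pow_left h n)

theorem eval_le_exp (q : Polynomial ℕ) : ∃ a, ∀ v, 1 ≤ v → q.eval v ≤ 2 ^ (a * v) := by
  induction q using Polynomial.induction_on' with
  | add p q hp hq =>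
    obtain ⟨a, ha⟩ := hp
    obtain ⟨b, hb⟩ := hq
    refine ⟨a + b + 1, fun v hv => ?_⟩
    have h1 : 2 ^ (a * v) ≤ 2 ^ ((a + b) * v) :=
      Nat.pow_le_pow_right two_pos (Nat.mul_le_mul_right _ (by omega))
    have h2 : 2 ^ (b * v) ≤ 2 ^ ((a + b) * v) :=
      Nat.pow_le_pow_right two_pos (Nat.mul_le_mul_right _ (by omega))
    have h3 : 2 ^ ((a + b) * v + 1) ≤ 2 ^ ((a + b + 1) * v) :=
      Nat.pow_le_pow_right two_pos (by nlinarith)
    have := ha v hv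
    have := hb v hv
    rw [pow_succ] at h3
    simp only [Polynomial.eval_add]
    omega
  | monomial n c =>
    refine ⟨c + n, fun v hv => ?_⟩
    simp only [Polynomial.eval_monomial]
    rw [add_mul, pow_add]
    refine Nat.mul_le_mul ?_ ?_
    · exact Nat.lt_two_pow_self.le.trans (Nat.pow_le_pow_right two_pos (by nlinarith))
    · rw [mul_comm, pow_mul]
      exact Nat.pow_le_pow_left Nat.lt_two_pow_self.le n

theorem params1 {k v y : ℕ} (h1 : 1 ≤ k * y) (hv : 36 * k ^ 2 ≤ v) :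
    (4 * (k * y) + 2) ^ 2 ≤ 2 * (v * y ^ 2) + 1 := by
  have h2 : 36 * k ^ 2 * y ^ 2 ≤ v * y ^ 2 := Nat.mul_le_mul_right _ hv
  have h3 : (4 * (k * y) + 2) ^ 2 ≤ (6 * (k * y)) ^ 2 := Nat.pow_le_pow_left (by omega) 2
  have h4 : (6 * (k * y)) ^ 2 = 36 * k ^ 2 * y ^ 2 := by ring
  omega

theorem params2 {a b c r : ℕ} (h4 : a ≤ b) (h6 : 2 ≤ b) (hc : 0 < c) (h1 : 4 * r ≤ c) :
    (a * (3 * a) + a * a) * r < b * (b * b * c) := by
  have h7 : (a * (3 * a) + a * a) * r ≤ b * b * c := by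
    calc _ = a * a * (4 * r) := by ring
      _ ≤ _ := Nat.mul_le_mul (Nat.mul_le_mul h4 h4) h1
  have h8 : 0 < b * b * c := Nat.mul_pos (Nat.mul_pos (by omega) (by omega)) hc
  have h9 : 2 * (b * b * c) ≤ b * (b * b * c) := Nat.mul_le_mul_right _ h6
  omega

theorem params (p d : ℕ) (hp : 1 ≤ p) (q : Polynomial ℕ) : ∃ n0 e : ℕ, ∀ n u Q, u = (n + n0) ^ e →
    Q = q.eval (2 * n + 2 + u + 2 * u * (n + 1)) → ∃ l, 1 ≤ l ∧
      (4 * (l * p) ^ d + 2) ^ 2 ≤ 2 * u + 1 ∧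
      (2 ^ n * (3 * 2 ^ n) + 2 ^ n * 2 ^ n) * (4 * ((Q + 1) * (2 * Q + 2) + 1) * (2 * u + 1)) <
        2 ^ l := by
  obtain ⟨e, he⟩ : ∃ e, e = d * 2 + 1 := ⟨_, rfl⟩
  obtain ⟨N, hN⟩ : ∃ N : Polynomial ℕ, N = 2 * Polynomial.X + 2 + Polynomial.X ^ e +
    2 * Polynomial.X ^ e * (Polynomial.X + 1) := ⟨_, rfl⟩
  obtain ⟨a, ha⟩ := eval_le_exp
    (4 * (4 * ((q.comp N + 1) * (2 * q.comp N + 2) + 1) * (2 * Polynomial.X ^ e + 1)))
  obtain ⟨k, hk⟩ : ∃ k, k = ((a + 3) * p) ^ d := ⟨_, rfl⟩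
  refine ⟨36 * k ^ 2 + 1, e, fun n u Q hu hQ => ?_⟩
  obtain ⟨v, hv⟩ : ∃ v, v = n + (36 * k ^ 2 + 1) := ⟨_, rfl⟩
  rw [← hv] at hu
  have hv1 : 1 ≤ v := by omega
  refine ⟨(a + 3) * v, Nat.mul_pos (by omega) hv1, ?_, ?_⟩
  · have e1 : ((a + 3) * v * p) ^ d = k * v ^ d := by
      rw [hk, ← mul_pow, mul_right_comm]
    have e2 : u = v * (v ^ d) ^ 2 := by rw [hu, he, pow_succ, pow_mul, mul_comm]
    have h1 : 1 ≤ k * v ^ d := by
      rw [← e1]; exact Nat.one_le_pow _ _ (Nat.mul_pos (Nat.mul_pos (by omega) hv1) hp)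
    rw [e1, e2]
    exact params1 h1 (by omega)
  · have h1 := ha v hv1
    simp only [Polynomial.eval_mul, Polynomial.eval_add, Polynomial.eval_comp, Polynomial.eval_X,
      Polynomial.eval_pow, Polynomial.eval_ofNat, Polynomial.eval_one, hN, ← hu] at h1
    have hnv : n ≤ v := by omega
    have h2 : Q ≤ q.eval (2 * v + 2 + u + 2 * u * (v + 1)) := by
      rw [hQ]
      refine eval_mono q ?_
      gcongr
    generalize q.eval (2 * v + 2 + u + 2 * u * (v + 1)) = Q' at h1 h2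
    have h3 : 4 * (4 * ((Q + 1) * (2 * Q + 2) + 1) * (2 * u + 1)) ≤
        4 * (4 * ((Q' + 1) * (2 * Q' + 2) + 1) * (2 * u + 1)) := by gcongr
    have h5 : 2 ^ ((a + 3) * v) = 2 ^ v * (2 ^ v * 2 ^ v * 2 ^ (a * v)) := by
      rw [← pow_add, ← pow_add, ← pow_add]; congr 1; ring
    rw [h5]
    exact params2 (Nat.pow_le_pow_right two_pos hnv) (Nat.pow_le_pow_right (n := 2) two_pos hv1)
      (by positivity) (h3.trans h1)

end Pool.Agent.MP_8a92de_lc.H92
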