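import Pool.Agent.MP_8a92de_lc.H92.Defs
import Pool.Agent.MP_8a92de_lc.H92.Deg

/-! Razborov-Smolensky approximation and the resulting bound for monochromatic sets. -/

namespace Pool.Agent.MP_8a92de_lc.H92

open Finset

variable {m : ℕ} {p : ℕ} [Fact p.Prime]

theorem halve {X ι F : Type} [Field F] [DecidableEq F] [Fintype ι] [DecidableEq ι] (Y : Finset X)
    (v : ι → X → F) (hv : ∀ y ∈ Y, ∃ i, v i y ≠ 0) :
    ∃ R : Finset ι, 2 * (Y.filter fun y => ∑ i ∈ R, v i y = 0).card ≤ Y.card := by
  by_contra hc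
  push Not at hc
  have h1 : ∀ y ∈ Y, 2 * (univ.filter fun R : Finset ι => ∑ i ∈ R, v i y = 0).card ≤
      Fintype.card (Finset ι) := by
    intro y hy
    obtain ⟨i0, hi0⟩ := hv y hy
    have h2 : (univ.filter fun R : Finset ι => ∑ i ∈ R, v i y = 0).card ≤
        (univ.filter fun R : Finset ι => ¬ ∑ i ∈ R, v i y = 0).card := by
      refine card_le_card_of_injOn (fun R => symmDiff R {i0}) ?_ ?_
      · intro R hR
        simp only [coe_filter, mem_univ, true_and, Set.mem_ofPred_eq] at hR ⊢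
        by_cases h : i0 ∈ R
        · have e : symmDiff R {i0} = R.erase i0 := by
            ext j; by_cases hj : j = i0 <;> simp [mem_symmDiff, hj, h]
          rw [e]
          intro h0
          rw [← add_sum_erase _ _ h, h0, add_zero] at hR
          exact hi0 hR
        · have e : symmDiff R {i0} = insert i0 R := by
            ext j; by_cases hj : j = i0 <;> simp [mem_symmDiff, hj, h]
          rw [e, sum_insert h, hR, add_zero]
          exact hi0
      · intro a _ b _ hab
        exact symmDiff_left_injective _ hab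
    have h3 := card_filter_add_card_filter_not (s := (univ : Finset (Finset ι)))
      (fun R : Finset ι => ∑ i ∈ R, v i y = 0)
    rw [card_univ] at h3
    omega
  have h4 : ∑ R : Finset ι, 2 * (Y.filter fun y => ∑ i ∈ R, v i y = 0).card =
      ∑ y ∈ Y, 2 * (univ.filter fun R : Finset ι => ∑ i ∈ R, v i y = 0).card := by
    simp only [card_filter, Finset.mul_sum]
    exact Finset.sum_comm
  have h5 : ∑ _R : Finset ι, Y.card <
      ∑ R : Finset ι, 2 * (Y.filter fun y => ∑ i ∈ R, v i y = 0).card :=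
    Finset.sum_lt_sum_of_nonempty univ_nonempty fun R _ => hc R
  have h6 := Finset.sum_le_sum h1
  rw [h4] at h5
  simp only [sum_const, card_univ, smul_eq_mul] at h5 h6
  rw [mul_comm] at h6
  omega

theorem nor_poly {k D : ℕ} (P : Fin k → Finset (Fin m) → ZMod p) (hP : ∀ i, P i ∈ Deg (ZMod p) m D)
    (Y : Finset (Finset (Fin m))) (hY : ∀ y ∈ Y, ∃ i, P i y ≠ 0) (l : ℕ) :
    ∃ Q ∈ Deg (ZMod p) m (l * (p * D)), ∃ E ⊆ Y, E.card * 2 ^ l ≤ Y.card ∧
      (∀ T, (∀ i, P i T = 0) → Q T = 1) ∧ ∀ T ∈ Y, T ∉ E → Q T = 0 := by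
  classical
  induction l with
  | zero => exact ⟨1, Deg.one _, Y, Subset.rfl, by simp, fun _ _ => rfl, fun T h1 h2 => absurd h1 h2⟩
  | succ l ih =>
    obtain ⟨Q, hQ, E, hE, h1, h2, h3⟩ := ih
    obtain ⟨R, hR⟩ := halve E P fun y hy => hY y (hE hy)
    have hp : 1 < p := (Fact.out : p.Prime).one_lt
    refine ⟨Q * (1 - (∑ i ∈ R, P i) ^ (p - 1)), ?_, E.filter fun y => ∑ i ∈ R, P i y = 0,
      (filter_subset _ _).trans hE, ?_, ?_, ?_⟩
    · rw [Nat.succ_mul]
      refine Deg.mul hQ (sub_mem (Deg.one _) (Deg.mono_le ?_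
        (Deg.pow (Submodule.sum_mem _ fun i _ => hP i) (p - 1))))
      exact Nat.mul_le_mul_right _ (by omega)
    · rw [pow_succ]
      calc _ = (2 * (E.filter fun y => ∑ i ∈ R, P i y = 0).card) * 2 ^ l := by ring
        _ ≤ E.card * 2 ^ l := Nat.mul_le_mul_right _ hR
        _ ≤ _ := h1
    · intro T hT
      have : p - 1 ≠ 0 := by omega
      simp [h2 T hT, Finset.sum_apply, hT, this]
    · intro T hT hTE
      by_cases h : T ∈ E
      · have h4 : ∑ i ∈ R, P i T ≠ 0 := fun h0 => hTE (mem_filter.2 ⟨h, h0⟩)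
        simp [Finset.sum_apply, ZMod.pow_card_sub_one_eq_one h4]
      · simp [h3 T hT h]

/-- `g` agrees with a function of degree at most `D` outside a set of density `e / 2 ^ l`. -/
def Approx (p : ℕ) [Fact p.Prime] (l D e : ℕ) (g : Finset (Fin m) → Bool) : Prop :=
  ∃ P ∈ Deg (ZMod p) m D, ∃ E : Finset (Finset (Fin m)), E.card * 2 ^ l ≤ e * 2 ^ m ∧
    ∀ T, T ∉ E → P T = if g T = true then 1 else 0

theorem Approx.mono {l D D' e e' : ℕ} {g : Finset (Fin m) → Bool} (h : Approx p l D e g)
    (hD : D ≤ D') (he : e ≤ e') : Approx p l D' e' g := by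
  obtain ⟨P, hP, E, h1, h2⟩ := h
  exact ⟨P, Deg.mono_le hD hP, E, h1.trans (Nat.mul_le_mul_right _ he), h2⟩

theorem Approx.not {l D e : ℕ} {g : Finset (Fin m) → Bool} (h : Approx p l D e g) :
    Approx p l D e fun T => !g T := by
  obtain ⟨P, hP, E, h1, h2⟩ := h
  refine ⟨1 - P, sub_mem (Deg.one _) hP, E, h1, fun T hT => ?_⟩
  have := h2 T hT
  cases hg : g T <;> simp [hg] at this ⊢ <;> simp [this]

theorem union_err {k l : ℕ} (E : Fin k → Finset (Finset (Fin m))) (e : Fin k → ℕ)
    (h : ∀ i, (E i).card * 2 ^ l ≤ e i * 2 ^ m) :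
    (univ.biUnion E).card * 2 ^ l ≤ (∑ i, e i) * 2 ^ m := by
  refine (Nat.mul_le_mul_right _ card_biUnion_le).trans ?_
  rw [Finset.sum_mul, Finset.sum_mul]
  exact Finset.sum_le_sum fun i _ => h i

theorem Approx.disj {k l D : ℕ} {e : Fin k → ℕ} {g : Fin k → Finset (Fin m) → Bool}
    (h : ∀ i, Approx p l D (e i) (g i)) :
    Approx p l (l * (p * D)) ((∑ i, e i) + 1) fun T => decide (∃ i, g i T = true) := by
  classical
  choose P hP E h1 h2 using h
  obtain ⟨Q, hQ, E', -, h3, h4, h5⟩ := nor_poly P hP (univ.filter fun y => ∃ i, P i y ≠ 0)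
    (fun y hy => (mem_filter.1 hy).2) l
  refine ⟨1 - Q, sub_mem (Deg.one _) hQ, univ.biUnion E ∪ E', ?_, fun T hT => ?_⟩
  · have a1 := union_err E e h1
    have a2 : (univ.filter fun y => ∃ i, P i y ≠ 0).card ≤ 2 ^ m := by
      refine (card_le_univ _).trans ?_
      simp
    calc _ ≤ ((univ.biUnion E).card + E'.card) * 2 ^ l :=
          Nat.mul_le_mul_right _ (card_union_le _ _)
      _ ≤ _ := by rw [add_mul, add_mul, one_mul]; omega
  · simp only [mem_union, mem_biUnion, mem_univ, true_and, not_or, not_exists] at hT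
    by_cases hg : ∃ i, g i T = true
    · obtain ⟨i, hi⟩ := hg
      have : Q T = 0 := h5 T (mem_filter.2 ⟨mem_univ _, i, by simp [h2 i T (hT.1 i), hi]⟩) hT.2
      have hg : ∃ i, g i T = true := ⟨i, hi⟩
      simp [this, hg]
    · have : Q T = 1 := h4 T fun i => by
        have : ¬ g i T = true := fun h => hg ⟨i, h⟩
        simp [h2 i T (hT.1 i), this]
      simp [this, hg]

theorem Approx.modp {k l D : ℕ} {e : Fin k → ℕ} {g : Fin k → Finset (Fin m) → Bool}
    (h : ∀ i, Approx p l D (e i) (g i)) :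
    Approx p l (p * D) (∑ i, e i)
      fun T => decide (p ∣ ∑ i, if g i T = true then 1 else 0) := by
  classical
  choose P hP E h1 h2 using h
  have hp : 1 < p := (Fact.out : p.Prime).one_lt
  refine ⟨1 - (∑ i, P i) ^ (p - 1), sub_mem (Deg.one _) (Deg.mono_le ?_
    (Deg.pow (Submodule.sum_mem _ fun i _ => hP i) (p - 1))), univ.biUnion E,
    union_err E e h1, fun T hT => ?_⟩
  · exact Nat.mul_le_mul_right _ (by omega)
  · simp only [mem_biUnion, mem_univ, true_and, not_exists] at hT
    have e1 : ∑ i, P i T = ((∑ i, if g i T = true then 1 else 0 : ℕ) : ZMod p) := by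
      push_cast
      exact Finset.sum_congr rfl fun i _ => by rw [h2 i T (hT i)]
    simp only [Pi.sub_apply, Pi.one_apply, Pi.pow_apply, Finset.sum_apply, e1, decide_eq_true_eq]
    by_cases hd : p ∣ ∑ i, if g i T = true then 1 else 0
    · rw [if_pos hd, (ZMod.natCast_eq_zero_iff _ _).2 hd, zero_pow (by omega), sub_zero]
    · rw [if_neg hd, ZMod.pow_card_sub_one_eq_one (fun h => hd ((ZMod.natCast_eq_zero_iff _ _).1 h)),
        sub_self]

theorem approx_fm {l : ℕ} (hl : 1 ≤ l) (σ : ℕ → Finset (Fin m) → Bool)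
    (hσ : ∀ i, Approx p l 1 0 (σ i)) (φ : Fm) :
    Approx p l ((l * p) ^ φ.depth) φ.size fun T => φ.eval p fun i => σ i T := by
  have hp : 1 < p := (Fact.out : p.Prime).one_lt
  have hlp : 1 ≤ l * p := Nat.mul_pos hl (by omega)
  induction φ with
  | var i => exact (hσ i).mono (by simp [Fm.depth]) (by simp)
  | neg c ih =>
    exact ih.not.mono (Nat.pow_le_pow_right hlp (by simp [Fm.depth])) (by simp [Fm.size])
  | conj k c ih =>
    have := (Approx.disj (D := (l * p) ^ (univ.sup fun i => (c i).depth)) fun i =>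
      ((ih i).mono (Nat.pow_le_pow_right hlp
        (le_sup (f := fun i => (c i).depth) (mem_univ i))) le_rfl).not).not
    have e : (fun T => !decide (∃ i, (!(c i).eval p fun i => σ i T) = true)) =
        fun T => (Fm.conj k c).eval p fun i => σ i T := by
      ext T
      rw [Bool.eq_iff_iff]
      simp [Fm.eval]
    rw [e] at this
    exact this.mono (le_of_eq (by rw [Fm.depth, pow_succ]; ring)) le_rfl
  | disj k c ih =>
    have := Approx.disj (D := (l * p) ^ (univ.sup fun i => (c i).depth)) fun i =>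
      (ih i).mono (Nat.pow_le_pow_right hlp
        (le_sup (f := fun i => (c i).depth) (mem_univ i))) le_rfl
    exact this.mono (le_of_eq (by rw [Fm.depth, pow_succ]; ring)) le_rfl
  | modp k c ih =>
    have := Approx.modp (D := (l * p) ^ (univ.sup fun i => (c i).depth)) fun i =>
      (ih i).mono (Nat.pow_le_pow_right hlp
        (le_sup (f := fun i => (c i).depth) (mem_univ i))) le_rfl
    refine this.mono ?_ (by simp [Fm.size])
    rw [Fm.depth, pow_succ, mul_comm]
    exact Nat.mul_le_mul_left _ (Nat.le_mul_of_pos_left _ hl)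

/-- A set recognised by an approximable function that contains no light or no heavy point. -/
theorem small_of_approx {u l D e : ℕ} {g : Finset (Fin (2 * u)) → Bool} (h : Approx p l D e g)
    (hD : (4 * D + 2) ^ 2 ≤ 2 * u + 1)
    (hg : (∀ T, g T = true → u ≤ T.card) ∨ ∀ T, g T = true → T.card ≤ u) :
    (univ.filter fun T => g T = true).card * 2 ^ l ≤ 4 * e * 4 ^ u := by
  obtain ⟨P, hP, E, h1, h2⟩ := h
  obtain ⟨t, ht⟩ : ∃ t, D + t + 1 = u := ⟨u - D - 1, by
    have : D + 1 ≤ u := by nlinarith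
    omega⟩
  have hb := ball_lower ht hD
  have key : (univ.filter fun T => g T = true).card * ball (2 * u) t ≤ E.card * 2 ^ (2 * u) := by
    rcases hg with hg | hg
    · refine closure_bound ∅ _ E hP (fun T hT => by simp [h2 T hT]) fun T hT => ?_
      have := hg T (mem_filter.1 hT).2
      have e : symmDiff T ∅ = T := symmDiff_bot T
      rw [e]; omega
    · refine closure_bound univ _ E hP (fun T hT => by simp [h2 T hT]) fun T hT => ?_
      have := hg T (mem_filter.1 hT).2
      have e : symmDiff T univ = Tᶜ := symmDiff_top T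
      rw [e, card_compl, Fintype.card_fin]; omega
  have e4 : 2 ^ (2 * u) = 4 ^ u := by rw [pow_mul]; norm_num
  rw [e4] at key h1
  have : ((univ.filter fun T => g T = true).card * 2 ^ l) * 4 ^ u ≤ (4 * e * 4 ^ u) * 4 ^ u := by
    calc _ ≤ ((univ.filter fun T => g T = true).card * 2 ^ l) * (4 * ball (2 * u) t) :=
          Nat.mul_le_mul_left _ hb
      _ = 4 * 2 ^ l * ((univ.filter fun T => g T = true).card * ball (2 * u) t) := by ring
      _ ≤ 4 * 2 ^ l * (E.card * 4 ^ u) := Nat.mul_le_mul_left _ key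
      _ = 4 * 4 ^ u * (E.card * 2 ^ l) := by ring
      _ ≤ 4 * 4 ^ u * (e * 4 ^ u) := Nat.mul_le_mul_left _ h1
      _ = _ := by ring
  exact Nat.le_of_mul_le_mul_right this (by positivity)

end Pool.Agent.MP_8a92de_lc.H92
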